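import Mathlib

/-!
# (6,3)-regular graphs (MP_74392e_co)

The pair `(6,3)` has at least two connected locally regular graphs, and all connected
`(6,3)`-regular graphs are finite.
-/

namespace Pool.Agent.Results.MP_74392e_co.SixThree

open SimpleGraph

universe u

/-- `(k,t)`-regular: every vertex has degree `k` and every local graph is `t`-regular, i.e. for
every vertex `v` and every neighbour `w` of `v` exactly `t` neighbours of `v` are adjacent to `w`
(cardinalities are taken in `ℕ∞`, so all vertex degrees are finite) -/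
def IsKT {V : Type u} (k t : ℕ) (G : SimpleGraph V) : Prop :=
  (∀ v, (G.neighborSet v).encard = k) ∧
    ∀ v w, G.Adj v w → {x | G.Adj v x ∧ G.Adj w x}.encard = t

section general

variable {V : Type u} {G : SimpleGraph V} {k t : ℕ}

/-- in a `(k,t)`-regular graph with `2k < 3t + 4` the ball of radius two is closed under
adjacency -/
lemma ball_closed (hG : IsKT k t G) (hkt : 2 * k < 3 * t + 4) (x z w : V)
    (hz : z = x ∨ ∃ y, G.Adj x y ∧ (z = y ∨ G.Adj y z)) (hzw : G.Adj z w) :
    w = x ∨ ∃ y, G.Adj x y ∧ (w = y ∨ G.Adj y w) := by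
  classical
  obtain ⟨hk, ht⟩ := hG
  rcases hz with rfl | ⟨y, hxy, rfl | hyz⟩
  · exact Or.inr ⟨w, hzw, Or.inl rfl⟩
  · exact Or.inr ⟨z, hxy, Or.inr hzw⟩
  by_contra hcon
  push Not at hcon
  obtain ⟨hwx, hfar⟩ := hcon
  have hfin : ∀ v, (G.neighborSet v).Finite := fun v => by
    apply Set.finite_of_encard_eq_coe (hk v)
  have hNmem : ∀ v x, x ∈ (hfin v).toFinset ↔ G.Adj v x := by
    intro v x
    rw [Set.Finite.mem_toFinset, mem_neighborSet]
  have hNcard : ∀ v, (hfin v).toFinset.card = k := by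
    intro v
    have h1 := hk v
    rw [(hfin v).encard_eq_coe_toFinset_card] at h1
    exact_mod_cast h1
  have hcom : ∀ v w, G.Adj v w → ((hfin v).toFinset ∩ (hfin w).toFinset).card = t := by
    intro v w h
    have h1 := ht v w h
    have h2 : {x | G.Adj v x ∧ G.Adj w x} = (((hfin v).toFinset ∩ (hfin w).toFinset : Finset V) : Set V) := by
      ext a
      simp [hNmem]
    rw [h2, Set.encard_coe_eq_coe_finsetCard] at h1
    exact_mod_cast h1
  generalize hN : (fun v => (hfin v).toFinset) = N at *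
  have hN' : ∀ v, (hfin v).toFinset = N v := fun v => by rw [← hN]
  simp only [hN'] at hNmem hNcard hcom
  have hyw : ¬ G.Adj y w := (hfar y hxy).2
  have hyw' : y ≠ w := fun h => (hfar y hxy).1 h.symm
  -- the two neighbourhoods inside `N z`
  have h1 : ((N z ∩ N y) ∪ (N z ∩ N w)).card + 2 ≤ k := by
    have hsub : ((N z ∩ N y) ∪ (N z ∩ N w)) ∪ {y, w} ⊆ N z := by
      intro a ha
      simp only [Finset.mem_union, Finset.mem_inter, Finset.mem_insert, Finset.mem_singleton] at ha
      rcases ha with (⟨h, -⟩ | ⟨h, -⟩) | rfl | rfl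
      · exact h
      · exact h
      · exact (hNmem _ _).2 hyz.symm
      · exact (hNmem _ _).2 hzw
    have hdis : Disjoint ((N z ∩ N y) ∪ (N z ∩ N w)) {y, w} := by
      rw [Finset.disjoint_left]
      intro a ha hb
      simp only [Finset.mem_union, Finset.mem_inter, Finset.mem_insert, Finset.mem_singleton,
        hNmem] at ha hb
      rcases hb with rfl | rfl
      · rcases ha with ⟨-, h⟩ | ⟨-, h⟩
        · exact h.ne rfl
        · exact hyw h.symm
      · rcases ha with ⟨-, h⟩ | ⟨-, h⟩
        · exact hyw h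
        · exact h.ne rfl
    have := Finset.card_le_card hsub
    rw [Finset.card_union_of_disjoint hdis, Finset.card_pair hyw', hNcard] at this
    exact this
  have h2 := Finset.card_union_add_card_inter (N z ∩ N y) (N z ∩ N w)
  rw [hcom z y hyz.symm, hcom z w hzw] at h2
  have h3 : ((N z ∩ N y) ∩ (N z ∩ N w)).card + 1 ≤ (N y ∩ N w).card := by
    have hz : z ∉ (N z ∩ N y) ∩ (N z ∩ N w) := by
      simp [hNmem]
    rw [← Finset.card_insert_of_notMem hz]
    apply Finset.card_le_card
    intro a ha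
    simp only [Finset.mem_insert, Finset.mem_inter, hNmem] at ha ⊢
    rcases ha with rfl | ⟨⟨-, h⟩, -, h'⟩
    · exact ⟨hyz, hzw.symm⟩
    · exact ⟨h, h'⟩
  have h4 : (N y ∩ N w).card + (1 + t) ≤ k := by
    have hx : x ∉ N x ∩ N y := by simp [hNmem]
    have hdis : Disjoint (N y ∩ N w) (insert x (N x ∩ N y)) := by
      rw [Finset.disjoint_left]
      intro a ha hb
      simp only [Finset.mem_insert, Finset.mem_inter, hNmem] at ha hb
      rcases hb with rfl | ⟨h, -⟩
      · exact (hfar w ha.2.symm).1 rfl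
      · exact (hfar a h).2 ha.2.symm
    have hsub : (N y ∩ N w) ∪ insert x (N x ∩ N y) ⊆ N y := by
      intro a ha
      simp only [Finset.mem_union, Finset.mem_insert, Finset.mem_inter] at ha
      rcases ha with ⟨h, -⟩ | rfl | ⟨-, h⟩
      · exact h
      · exact (hNmem _ _).2 hxy.symm
      · exact h
    have := Finset.card_le_card hsub
    rw [Finset.card_union_of_disjoint hdis, Finset.card_insert_of_notMem hx, hNcard,
      hcom x y hxy] at this
    omega
  omega

/-- connected `(k,t)`-regular graphs with `2k < 3t + 4` are finite, and any two vertices are at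
distance at most two -/
theorem finite_of_lt (hG : IsKT k t G) (hkt : 2 * k < 3 * t + 4) (hc : G.Connected) :
    Finite V ∧ ∀ x w, w = x ∨ ∃ y, G.Adj x y ∧ (w = y ∨ G.Adj y w) := by
  have hall : ∀ x w, w = x ∨ ∃ y, G.Adj x y ∧ (w = y ∨ G.Adj y w) := by
    intro x w
    obtain ⟨p⟩ := hc.preconnected x w
    have key : ∀ (a b : V) (q : G.Walk a b), (a = x ∨ ∃ y, G.Adj x y ∧ (a = y ∨ G.Adj y a)) →
        (b = x ∨ ∃ y, G.Adj x y ∧ (b = y ∨ G.Adj y b)) := by
      intro a b q
      induction q with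
      | nil => exact id
      | cons h q ih => exact fun ha => ih (ball_closed hG hkt x _ _ ha h)
    exact key x w p (Or.inl rfl)
  refine ⟨?_, hall⟩
  obtain ⟨x⟩ := hc.nonempty
  have hfin : ∀ v, (G.neighborSet v).Finite := fun v => Set.finite_of_encard_eq_coe (hG.1 v)
  have hB : ({x} ∪ ⋃ y ∈ G.neighborSet x, ({y} ∪ G.neighborSet y) : Set V).Finite := by
    apply (Set.finite_singleton x).union
    apply (hfin x).biUnion
    intro y _
    exact (Set.finite_singleton y).union (hfin y)
  apply Set.finite_univ_iff.1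
  apply hB.subset
  intro w _
  rcases hall x w with rfl | ⟨y, hxy, h⟩
  · exact Or.inl rfl
  · right
    rw [Set.mem_iUnion₂]
    refine ⟨y, hxy, ?_⟩
    rcases h with rfl | h
    · exact Or.inl rfl
    · exact Or.inr h

end general

/-- the complete tripartite graph `K_{3,3,3}` -/
def K333 : SimpleGraph (Fin 9) where
  Adj i j := i.val % 3 ≠ j.val % 3
  symm := ⟨fun _ _ h => h.symm⟩
  loopless := ⟨fun _ h => h rfl⟩

instance : DecidableRel K333.Adj := fun i j =>
  inferInstanceAs (Decidable (i.val % 3 ≠ j.val % 3))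

/-- the ten pairs of elements of a five-element set -/
def pr : Fin 10 → Fin 5 × Fin 5 :=
  ![(0, 1), (0, 2), (0, 3), (0, 4), (1, 2), (1, 3), (1, 4), (2, 3), (2, 4), (3, 4)]

/-- two pairs meet -/
def meet (p q : Fin 5 × Fin 5) : Prop := p.1 = q.1 ∨ p.1 = q.2 ∨ p.2 = q.1 ∨ p.2 = q.2

instance (p q : Fin 5 × Fin 5) : Decidable (meet p q) :=
  inferInstanceAs (Decidable (p.1 = q.1 ∨ p.1 = q.2 ∨ p.2 = q.1 ∨ p.2 = q.2))

/-- the triangular graph `T(5)`, the line graph of `K_5` -/
def T5 : SimpleGraph (Fin 10) where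
  Adj i j := i ≠ j ∧ meet (pr i) (pr j)
  symm := ⟨fun i j h => ⟨h.1.symm, by
    rcases h.2 with h | h | h | h
    · exact Or.inl h.symm
    · exact Or.inr (Or.inr (Or.inl h.symm))
    · exact Or.inr (Or.inl h.symm)
    · exact Or.inr (Or.inr (Or.inr h.symm))⟩⟩
  loopless := ⟨fun _ h => h.1 rfl⟩

instance : DecidableRel T5.Adj := fun i j =>
  inferInstanceAs (Decidable (i ≠ j ∧ meet (pr i) (pr j)))

lemma isKT_of_fin {n : ℕ} (G : SimpleGraph (Fin n)) [DecidableRel G.Adj] (k t : ℕ)
    (h1 : ∀ v, (Finset.univ.filter fun x => G.Adj v x).card = k)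
    (h2 : ∀ v w, G.Adj v w → (Finset.univ.filter fun x => G.Adj v x ∧ G.Adj w x).card = t) :
    IsKT k t G := by
  refine ⟨fun v => ?_, fun v w h => ?_⟩
  · have : G.neighborSet v = ((Finset.univ.filter fun x => G.Adj v x : Finset (Fin n)) : Set (Fin n)) := by
      ext x
      simp
    rw [this, Set.encard_coe_eq_coe_finsetCard, h1 v]
  · have : {x | G.Adj v x ∧ G.Adj w x} =
        ((Finset.univ.filter fun x => G.Adj v x ∧ G.Adj w x : Finset (Fin n)) : Set (Fin n)) := by
      ext x
      simp
    rw [this, Set.encard_coe_eq_coe_finsetCard, h2 v w h]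

lemma connected_of_fin {n : ℕ} (G : SimpleGraph (Fin (n + 1)))
    (h : ∀ v w, ∃ x, G.Adj v x ∧ G.Adj x w) : G.Connected := by
  have : Nonempty (Fin (n + 1)) := ⟨0⟩
  refine ⟨fun v w => ?_⟩
  obtain ⟨x, h1, h2⟩ := h v w
  exact h1.reachable.trans h2.reachable

lemma k333_kt : IsKT 6 3 K333 := by
  apply isKT_of_fin
  · decide +kernel
  · decide +kernel

lemma t5_kt : IsKT 6 3 T5 := by
  apply isKT_of_fin
  · decide +kernel
  · decide +kernel

lemma k333_conn : K333.Connected := connected_of_fin _ (by decide +kernel)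

lemma t5_conn : T5.Connected := connected_of_fin _ (by decide +kernel)

/-- **Answer: yes, `(6,3)` is such a pair.**  The first part is the answer (two connected
non-isomorphic `(k,t)`-regular graphs, all connected ones finite); the second is the general
finiteness criterion behind it. -/
theorem result :
    (∃ k t : ℕ, 1 ≤ k ∧
      (∃ (m n : ℕ) (G : SimpleGraph (Fin m)) (H : SimpleGraph (Fin n)), G.Connected ∧ H.Connected ∧
        IsKT k t G ∧ IsKT k t H ∧ IsEmpty (G ≃g H)) ∧
      ∀ (V : Type u) (G : SimpleGraph V), G.Connected → IsKT k t G → Finite V) ∧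
    (∀ k t : ℕ, 2 * k < 3 * t + 4 → ∀ (V : Type u) (G : SimpleGraph V), G.Connected →
      IsKT k t G → Finite V ∧ ∀ x w, G.dist x w ≤ 2) := by
  refine ⟨⟨6, 3, by norm_num, ⟨9, 10, K333, T5, k333_conn, t5_conn, k333_kt, t5_kt, ⟨fun e => ?_⟩⟩,
    fun V G hc hG => (finite_of_lt hG (by norm_num) hc).1⟩, ?_⟩
  · have := Fintype.card_congr e.toEquiv
    simp at this
  · intro k t hkt V G hc hG
    obtain ⟨h1, h2⟩ := finite_of_lt hG hkt hc
    refine ⟨h1, fun x w => ?_⟩
    rcases h2 x w with rfl | ⟨y, hxy, rfl | h⟩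
    · simp
    · rw [SimpleGraph.dist_eq_one_iff_adj.2 hxy]
      norm_num
    · exact SimpleGraph.dist_le (Walk.cons hxy (Walk.cons h Walk.nil))

end Pool.Agent.Results.MP_74392e_co.SixThree
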